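import Mathlib

/-!
# Noncommutative polynomials with integer coefficients as lists of terms
-/

set_option autoImplicit false
set_option linter.unusedSectionVars false

namespace Pool.Agent.TH783.QH

/-- polynomials: lists of pairs (coefficient, word) -/
abbrev Pol := List (ℤ × List ℕ)

/-- the product -/
def mulP (p q : Pol) : Pol := p.flatMap fun s => q.map fun t => (s.1 * t.1, s.2 ++ t.2)

/-- the negative -/
def negP (p : Pol) : Pol := p.map fun t => (-t.1, t.2)

/-- the square -/
def sqP (p : Pol) : Pol := mulP p p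

/-- the commutator -/
def comP (p q : Pol) : Pol := mulP p q ++ negP (mulP q p)

/-- the indices of the variables which occur -/
def letters (p : Pol) : List ℕ := p.flatMap fun t => t.2

section

variable {R : Type} [Ring R]

/-- the value of a polynomial -/
def ev (x : ℕ → R) (p : Pol) : R := (p.map fun t => (t.1 : R) * (t.2.map x).prod).sum

@[simp] lemma ev_nil (x : ℕ → R) : ev x [] = 0 := rfl

lemma ev_cons (x : ℕ → R) (t : ℤ × List ℕ) (p : Pol) :
    ev x (t :: p) = (t.1 : R) * (t.2.map x).prod + ev x p := by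
  simp [ev]

lemma ev_append (x : ℕ → R) (p q : Pol) : ev x (p ++ q) = ev x p + ev x q := by
  simp [ev]

lemma ev_flatMap (x : ℕ → R) {α : Type} (l : List α) (f : α → Pol) :
    ev x (l.flatMap f) = (l.map fun a => ev x (f a)).sum := by
  induction l with
  | nil => simp
  | cons a l ih => rw [List.flatMap_cons, ev_append, ih, List.map_cons, List.sum_cons]

lemma ev_neg (x : ℕ → R) (p : Pol) : ev x (negP p) = -ev x p := by
  induction p with
  | nil => simp [negP]
  | cons t p ih =>
    have h : negP (t :: p) = (-t.1, t.2) :: negP p := rfl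
    rw [h, ev_cons, ev_cons, ih]
    push_cast
    rw [neg_mul, neg_add]

lemma ev_term (x : ℕ → R) (s : ℤ × List ℕ) (q : Pol) :
    ev x (q.map fun t => (s.1 * t.1, s.2 ++ t.2)) = (s.1 : R) * (s.2.map x).prod * ev x q := by
  induction q with
  | nil => simp
  | cons t q ih =>
    rw [List.map_cons, ev_cons, ev_cons, mul_add, ih]
    congr 1
    push_cast
    rw [List.map_append, List.prod_append]
    have hc := Int.cast_commute t.1 ((s.2.map x).prod)
    calc (s.1 : R) * (t.1 : R) * ((s.2.map x).prod * (t.2.map x).prod)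
        = (s.1 : R) * ((t.1 : R) * (s.2.map x).prod) * (t.2.map x).prod := by
          simp only [mul_assoc]
      _ = (s.1 : R) * ((s.2.map x).prod * (t.1 : R)) * (t.2.map x).prod := by rw [hc.eq]
      _ = _ := by simp only [mul_assoc]

lemma ev_mul (x : ℕ → R) (p q : Pol) : ev x (mulP p q) = ev x p * ev x q := by
  induction p with
  | nil => simp [mulP]
  | cons s p ih =>
    have h : mulP (s :: p) q = (q.map fun t => (s.1 * t.1, s.2 ++ t.2)) ++ mulP p q := rfl
    rw [h, ev_append, ih, ev_cons, add_mul, ev_term]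

lemma ev_sq (x : ℕ → R) (p : Pol) : ev x (sqP p) = ev x p * ev x p := ev_mul x p p

lemma ev_com (x : ℕ → R) (p q : Pol) : ev x (comP p q) = ev x p * ev x q - ev x q * ev x p := by
  rw [comP, ev_append, ev_neg, ev_mul, ev_mul, sub_eq_add_neg]

lemma ev_map {S : Type} [Ring S] (f : R →+* S) (x : ℕ → R) (p : Pol) :
    f (ev x p) = ev (fun n => f (x n)) p := by
  induction p with
  | nil => simp
  | cons t p ih =>
    rw [ev_cons, ev_cons, map_add, map_mul, map_intCast, ih, map_list_prod, List.map_map]
    rfl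

lemma ev_congr {x y : ℕ → R} (p : Pol) (h : ∀ n ∈ letters p, x n = y n) : ev x p = ev y p := by
  induction p with
  | nil => simp
  | cons t p ih =>
    rw [ev_cons, ev_cons, ih fun n hn => h n (by
      rw [letters, List.flatMap_cons]
      exact List.mem_append_right _ hn)]
    congr 3
    refine List.map_congr_left fun n hn => h n ?_
    rw [letters, List.flatMap_cons]
    exact List.mem_append_left _ hn

end

/-! ### Computability -/

lemma enc_ofNat (n : ℕ) : Encodable.encode (n : ℤ) = 2 * n := rfl

lemma enc_negSucc (n : ℕ) : Encodable.encode (Int.negSucc n) = 2 * n + 1 := rfl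

lemma prim_toNat : Primrec Int.toNat := by
  have h : Primrec (fun n : ℕ => if n % 2 = 0 then n / 2 else 0) := by
    refine Primrec.ite ?_ ?_ (Primrec.const 0)
    · exact Primrec.eq.comp (Primrec.nat_mod.comp Primrec.id (Primrec.const 2)) (Primrec.const 0)
    · exact Primrec.nat_div.comp Primrec.id (Primrec.const 2)
  refine (h.comp Primrec.encode).of_eq fun z => ?_
  cases z with
  | ofNat n =>
    show (if (Encodable.encode (n : ℤ)) % 2 = 0 then (Encodable.encode (n : ℤ)) / 2 else 0) = n
    rw [enc_ofNat, if_pos (by omega)]; omega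
  | negSucc n =>
    show (if (Encodable.encode (Int.negSucc n)) % 2 = 0 then
      (Encodable.encode (Int.negSucc n)) / 2 else 0) = 0
    rw [enc_negSucc, if_neg (by omega)]

lemma prim_toNat_neg : Primrec (fun z : ℤ => (-z).toNat) := by
  have h : Primrec (fun n : ℕ => if n % 2 = 0 then 0 else n / 2 + 1) := by
    refine Primrec.ite ?_ (Primrec.const 0) ?_
    · exact Primrec.eq.comp (Primrec.nat_mod.comp Primrec.id (Primrec.const 2)) (Primrec.const 0)
    · exact Primrec.succ.comp (Primrec.nat_div.comp Primrec.id (Primrec.const 2))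
  refine (h.comp Primrec.encode).of_eq fun z => ?_
  cases z with
  | ofNat n =>
    show (if (Encodable.encode (n : ℤ)) % 2 = 0 then 0 else (Encodable.encode (n : ℤ)) / 2 + 1) =
      (-(n : ℤ)).toNat
    rw [enc_ofNat, if_pos (by omega)]; omega
  | negSucc n =>
    show (if (Encodable.encode (Int.negSucc n)) % 2 = 0 then 0 else
      (Encodable.encode (Int.negSucc n)) / 2 + 1) = (-(Int.negSucc n)).toNat
    rw [enc_negSucc, if_neg (by omega)]
    rw [Int.neg_negSucc]
    simp
    omega

lemma prim_natSub : Primrec₂ (fun p q : ℕ => (p : ℤ) - (q : ℤ)) := by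
  have h : Primrec₂ (fun p q : ℕ => if q ≤ p then 2 * (p - q) else 2 * (q - p) - 1) := by
    refine Primrec.ite ?_ ?_ ?_
    · exact Primrec.nat_le.comp Primrec.snd Primrec.fst
    · exact Primrec.nat_mul.comp (Primrec.const 2) (Primrec.nat_sub.comp Primrec.fst Primrec.snd)
    · exact Primrec.nat_sub.comp (Primrec.nat_mul.comp (Primrec.const 2)
        (Primrec.nat_sub.comp Primrec.snd Primrec.fst)) (Primrec.const 1)
  refine Primrec.encode_iff.1 (Primrec.of_eq (α := ℕ × ℕ) h fun a => ?_)
  obtain ⟨p, q⟩ := a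
  show (if q ≤ p then 2 * (p - q) else 2 * (q - p) - 1) = Encodable.encode ((p : ℤ) - (q : ℤ))
  split_ifs with hq
  · have : (p : ℤ) - q = ((p - q : ℕ) : ℤ) := by omega
    rw [this, enc_ofNat]
  · have : (p : ℤ) - q = Int.negSucc (q - p - 1) := by
      rw [Int.negSucc_eq]; omega
    rw [this, enc_negSucc]; omega

lemma prim_int_mul : Primrec₂ (fun x y : ℤ => x * y) := by
  have hx : Primrec (fun a : ℤ × ℤ => ((a.1.toNat, (-a.1).toNat), (a.2.toNat, (-a.2).toNat))) :=
    Primrec.pair (Primrec.pair (prim_toNat.comp Primrec.fst) (prim_toNat_neg.comp Primrec.fst))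
      (Primrec.pair (prim_toNat.comp Primrec.snd) (prim_toNat_neg.comp Primrec.snd))
  have hP : Primrec (fun a : (ℕ × ℕ) × (ℕ × ℕ) => a.1.1 * a.2.1 + a.1.2 * a.2.2) :=
    Primrec.nat_add.comp
      (Primrec.nat_mul.comp (Primrec.fst.comp Primrec.fst) (Primrec.fst.comp Primrec.snd))
      (Primrec.nat_mul.comp (Primrec.snd.comp Primrec.fst) (Primrec.snd.comp Primrec.snd))
  have hN : Primrec (fun a : (ℕ × ℕ) × (ℕ × ℕ) => a.1.1 * a.2.2 + a.1.2 * a.2.1) :=
    Primrec.nat_add.comp
      (Primrec.nat_mul.comp (Primrec.fst.comp Primrec.fst) (Primrec.snd.comp Primrec.snd))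
      (Primrec.nat_mul.comp (Primrec.snd.comp Primrec.fst) (Primrec.fst.comp Primrec.snd))
  refine (prim_natSub.comp (hP.comp hx) (hN.comp hx)).of_eq fun a => ?_
  obtain ⟨x, y⟩ := a
  push_cast
  have hx : x = (x.toNat : ℤ) - ((-x).toNat : ℤ) := by omega
  have hy : y = (y.toNat : ℤ) - ((-y).toNat : ℤ) := by omega
  show _ = x * y
  generalize (x.toNat : ℤ) = a at *
  generalize ((-x).toNat : ℤ) = b at *
  generalize (y.toNat : ℤ) = c at *
  generalize ((-y).toNat : ℤ) = d at *
  rw [hx, hy]
  ring

lemma prim_int_neg : Primrec (fun x : ℤ => -x) :=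
  (prim_int_mul.comp (Primrec.const (-1)) Primrec.id).of_eq fun x => by simp

lemma prim_mulP : Primrec₂ mulP := by
  unfold mulP
  refine Primrec.list_flatMap Primrec.fst ?_
  refine Primrec.list_map (Primrec.snd.comp Primrec.fst) ?_
  have h1 : Primrec (fun q : ((Pol × Pol) × (ℤ × List ℕ)) × (ℤ × List ℕ) => q.1.2.1) :=
    Primrec.fst.comp (Primrec.snd.comp Primrec.fst)
  have h2 : Primrec (fun q : ((Pol × Pol) × (ℤ × List ℕ)) × (ℤ × List ℕ) => q.2.1) :=
    Primrec.fst.comp Primrec.snd
  have h3 : Primrec (fun q : ((Pol × Pol) × (ℤ × List ℕ)) × (ℤ × List ℕ) => q.1.2.2) :=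
    Primrec.snd.comp (Primrec.snd.comp Primrec.fst)
  have h4 : Primrec (fun q : ((Pol × Pol) × (ℤ × List ℕ)) × (ℤ × List ℕ) => q.2.2) :=
    Primrec.snd.comp Primrec.snd
  exact Primrec.pair (prim_int_mul.comp h1 h2) (Primrec.list_append.comp h3 h4)

lemma prim_negP : Primrec negP := by
  unfold negP
  refine Primrec.list_map Primrec.id ?_
  exact Primrec.pair (prim_int_neg.comp (Primrec.fst.comp Primrec.snd))
    (Primrec.snd.comp Primrec.snd)

lemma prim_letters : Primrec letters := by
  unfold letters
  exact Primrec.list_flatMap Primrec.id (Primrec.snd.comp Primrec.snd)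

lemma prim_sqP : Primrec sqP := prim_mulP.comp Primrec.id Primrec.id

lemma prim_comP : Primrec₂ comP :=
  Primrec.list_append.comp (prim_mulP.comp Primrec.fst Primrec.snd)
    (prim_negP.comp (prim_mulP.comp Primrec.snd Primrec.fst))

end Pool.Agent.TH783.QH
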