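import Pool.Agent.TH783.QH.Poly

/-!
# Equations over the rational quaternions: defining the rationals
-/

set_option autoImplicit false
set_option linter.unusedSectionVars false

open scoped Quaternion

namespace Pool.Agent.TH783.QH

/-- the rationals in the quaternions -/
abbrev io : ℚ →+* ℍ[ℚ] := algebraMap ℚ ℍ[ℚ]

lemma io_re (r : ℚ) : (io r).re = r := rfl
lemma io_imI (r : ℚ) : (io r).imI = 0 := rfl
lemma io_imJ (r : ℚ) : (io r).imJ = 0 := rfl
lemma io_imK (r : ℚ) : (io r).imK = 0 := rfl

lemma io_comm (r : ℚ) (u : ℍ[ℚ]) : io r * u = u * io r := Algebra.commutes r u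

lemma io_inj {r : ℚ} (h : io r = 0) : r = 0 := (map_eq_zero io).1 h

/-- the square of a commutator is the negative of its norm -/
lemma com_sq (u v : ℍ[ℚ]) : (u * v - v * u) * (u * v - v * u) =
    io (-(Quaternion.normSq (u * v - v * u))) := by
  rw [Quaternion.normSq_def']
  ext
  · rw [io_re]
    simp
    ring
  · rw [io_imI]
    simp
    ring
  · rw [io_imJ]
    simp
    ring
  · rw [io_imK]
    simp
    ring

lemma normSq_pos' (u : ℍ[ℚ]) : 0 ≤ Quaternion.normSq u := Quaternion.normSq_nonneg

/-- only rationals commute with two elements which do not commute -/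
lemma central {a b x : ℍ[ℚ]} (hab : a * b ≠ b * a) (ha : x * a = a * x) (hb : x * b = b * x) :
    x = io x.re := by
  have a1 := congrArg QuaternionAlgebra.imI ha
  have a2 := congrArg QuaternionAlgebra.imJ ha
  have a3 := congrArg QuaternionAlgebra.imK ha
  have b1 := congrArg QuaternionAlgebra.imI hb
  have b2 := congrArg QuaternionAlgebra.imJ hb
  have b3 := congrArg QuaternionAlgebra.imK hb
  simp only [Quaternion.imI_mul, Quaternion.imJ_mul, Quaternion.imK_mul] at a1 a2 a3 b1 b2 b3
  have A1 : x.imJ * a.imK = x.imK * a.imJ := by linarith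
  have A2 : x.imK * a.imI = x.imI * a.imK := by linarith
  have A3 : x.imI * a.imJ = x.imJ * a.imI := by linarith
  have B1 : x.imJ * b.imK = x.imK * b.imJ := by linarith
  have B2 : x.imK * b.imI = x.imI * b.imK := by linarith
  have B3 : x.imI * b.imJ = x.imJ * b.imI := by linarith
  have hne : a.imJ * b.imK - a.imK * b.imJ ≠ 0 ∨ a.imK * b.imI - a.imI * b.imK ≠ 0 ∨
      a.imI * b.imJ - a.imJ * b.imI ≠ 0 := by
    by_contra hcon
    push Not at hcon
    obtain ⟨h1, h2, h3⟩ := hcon
    apply hab
    ext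
    · simp only [Quaternion.re_mul]
      ring
    · simp only [Quaternion.imI_mul]
      linarith
    · simp only [Quaternion.imJ_mul]
      linarith
    · simp only [Quaternion.imK_mul]
      linarith
  have key : x.imI = 0 ∧ x.imJ = 0 ∧ x.imK = 0 := by
    rcases hne with h | h | h
    · refine ⟨?_, ?_, ?_⟩
      · refine (mul_eq_zero.1 (?_ : (a.imJ * b.imK - a.imK * b.imJ) * x.imI = 0)).resolve_left h
        linear_combination b.imK * A3 + b.imJ * A2 + a.imI * B1
      · refine (mul_eq_zero.1 (?_ : (a.imJ * b.imK - a.imK * b.imJ) * x.imJ = 0)).resolve_left h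
        linear_combination a.imJ * B1 - b.imJ * A1
      · refine (mul_eq_zero.1 (?_ : (a.imJ * b.imK - a.imK * b.imJ) * x.imK = 0)).resolve_left h
        linear_combination a.imK * B1 - b.imK * A1
    · refine ⟨?_, ?_, ?_⟩
      · refine (mul_eq_zero.1 (?_ : (a.imK * b.imI - a.imI * b.imK) * x.imI = 0)).resolve_left h
        linear_combination a.imI * B2 - b.imI * A2
      · refine (mul_eq_zero.1 (?_ : (a.imK * b.imI - a.imI * b.imK) * x.imJ = 0)).resolve_left h
        linear_combination b.imI * A1 + b.imK * A3 + a.imJ * B2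
      · refine (mul_eq_zero.1 (?_ : (a.imK * b.imI - a.imI * b.imK) * x.imK = 0)).resolve_left h
        linear_combination a.imK * B2 - b.imK * A2
    · refine ⟨?_, ?_, ?_⟩
      · refine (mul_eq_zero.1 (?_ : (a.imI * b.imJ - a.imJ * b.imI) * x.imI = 0)).resolve_left h
        linear_combination a.imI * B3 - b.imI * A3
      · refine (mul_eq_zero.1 (?_ : (a.imI * b.imJ - a.imJ * b.imI) * x.imJ = 0)).resolve_left h
        linear_combination a.imJ * B3 - b.imJ * A3
      · refine (mul_eq_zero.1 (?_ : (a.imI * b.imJ - a.imJ * b.imI) * x.imK = 0)).resolve_left h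
        linear_combination b.imJ * A2 + b.imI * A1 + a.imK * B3
  ext
  · rw [io_re]
  · rw [io_imI, key.1]
  · rw [io_imJ, key.2.1]
  · rw [io_imK, key.2.2]

/-- the element `i` -/
def qi : ℍ[ℚ] := ⟨0, 1, 0, 0⟩

/-- half of the element `j` -/
def qj : ℍ[ℚ] := ⟨0, 0, 1 / 2, 0⟩

lemma norm_qi_qj : Quaternion.normSq (qi * qj - qj * qi) = 1 := by
  have a0 : qi.re = 0 := rfl
  have a1 : qi.imI = 1 := rfl
  have a2 : qi.imJ = 0 := rfl
  have a3 : qi.imK = 0 := rfl
  have b0 : qj.re = 0 := rfl
  have b1 : qj.imI = 0 := rfl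
  have b2 : qj.imJ = 1 / 2 := rfl
  have b3 : qj.imK = 0 := rfl
  rw [Quaternion.normSq_def']
  simp only [Quaternion.re_sub, Quaternion.imI_sub, Quaternion.imJ_sub, Quaternion.imK_sub,
    Quaternion.re_mul, Quaternion.imI_mul, Quaternion.imJ_mul, Quaternion.imK_mul, a0, a1, a2, a3,
    b0, b1, b2, b3]
  norm_num

end Pool.Agent.TH783.QH
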