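import Pool.Agent.TH783.QH.Quat

/-!
# From equations over the rationals to equations over the rational quaternions
-/

set_option autoImplicit false
set_option linter.unusedSectionVars false

open scoped Quaternion

namespace Pool.Agent.TH783.QH

/-- a variable -/
def var (n : ℕ) : Pol := [(1, [n])]

lemma ev_var {R : Type} [Ring R] (x : ℕ → R) (n : ℕ) : ev x (var n) = x n := by
  simp [ev, var]

/-- the conditions that the variable `k` commutes with the variables 0 and 1, for `k` in a list -/
def cenP (l : List ℕ) : Pol :=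
  l.flatMap fun k => sqP (comP (var k) (var 0)) ++ sqP (comP (var k) (var 1))

/-- renaming the variables -/
def shP (p : Pol) : Pol := p.map fun t => (t.1, t.2.map (· + 2))

/-- the translation -/
def trP (p : Pol) : Pol :=
  sqP (sqP (comP (var 0) (var 1)) ++ [(1, [])]) ++
    negP (cenP (letters (shP p)) ++ sqP (comP (mulP (shP p) (var 0)) (var 1)))

lemma ev_sh {R : Type} [Ring R] (x : ℕ → R) (p : Pol) :
    ev x (shP p) = ev (fun n => x (n + 2)) p := by
  induction p with
  | nil => simp [shP]
  | cons t p ih =>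
    have h : shP (t :: p) = (t.1, t.2.map (· + 2)) :: shP p := rfl
    rw [h, ev_cons, ev_cons, ih, List.map_map]
    rfl

lemma letters_sh (p : Pol) (n : ℕ) (h : n ∈ letters p) : n + 2 ∈ letters (shP p) := by
  unfold letters shP at *
  rw [List.mem_flatMap] at h ⊢
  obtain ⟨t, ht, hn⟩ := h
  exact ⟨(t.1, t.2.map (· + 2)), List.mem_map_of_mem ht, List.mem_map_of_mem hn⟩

lemma ev_sqcom (x : ℕ → ℍ[ℚ]) (P Q : Pol) : ev x (sqP (comP P Q)) =
    io (-(Quaternion.normSq (ev x P * ev x Q - ev x Q * ev x P))) := by
  rw [ev_sq, ev_com, com_sq]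

/-- the sum of the norms of the commutators -/
def cenS (x : ℕ → ℍ[ℚ]) (l : List ℕ) : ℚ :=
  (l.map fun k => Quaternion.normSq (x k * x 0 - x 0 * x k) +
    Quaternion.normSq (x k * x 1 - x 1 * x k)).sum

lemma ev_cen (x : ℕ → ℍ[ℚ]) (l : List ℕ) : ev x (cenP l) = io (-(cenS x l)) := by
  induction l with
  | nil => simp [cenP, cenS]
  | cons k l ih =>
    have h1 : cenP (k :: l) = (sqP (comP (var k) (var 0)) ++ sqP (comP (var k) (var 1))) ++ cenP l :=
      rfl
    have h2 : cenS x (k :: l) = (Quaternion.normSq (x k * x 0 - x 0 * x k) +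
      Quaternion.normSq (x k * x 1 - x 1 * x k)) + cenS x l := by
      simp [cenS]
    rw [h1, ev_append, ev_append, ih, ev_sqcom, ev_sqcom, h2]
    simp only [ev_var]
    rw [← map_add, ← map_add]
    congr 1
    ring

lemma cenS_nonneg (x : ℕ → ℍ[ℚ]) (l : List ℕ) : 0 ≤ cenS x l := by
  refine List.sum_nonneg fun r hr => ?_
  rw [List.mem_map] at hr
  obtain ⟨k, -, rfl⟩ := hr
  exact add_nonneg (normSq_pos' _) (normSq_pos' _)

lemma cenS_zero (x : ℕ → ℍ[ℚ]) (l : List ℕ) (h : cenS x l = 0) (k : ℕ) (hk : k ∈ l) :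
    x k * x 0 = x 0 * x k ∧ x k * x 1 = x 1 * x k := by
  induction l with
  | nil => simp at hk
  | cons j l ih =>
    have h2 : cenS x (j :: l) = (Quaternion.normSq (x j * x 0 - x 0 * x j) +
      Quaternion.normSq (x j * x 1 - x 1 * x j)) + cenS x l := by
      simp [cenS]
    rw [h2] at h
    have n1 := normSq_pos' (x j * x 0 - x 0 * x j)
    have n2 := normSq_pos' (x j * x 1 - x 1 * x j)
    have n3 := cenS_nonneg x l
    rcases List.mem_cons.1 hk with rfl | hk
    · constructor
      · have : Quaternion.normSq (x k * x 0 - x 0 * x k) = 0 := by linarith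
        rw [Quaternion.normSq_eq_zero] at this
        exact sub_eq_zero.1 this
      · have : Quaternion.normSq (x k * x 1 - x 1 * x k) = 0 := by linarith
        rw [Quaternion.normSq_eq_zero] at this
        exact sub_eq_zero.1 this
    · exact ih (by linarith) hk

/-- the value of the translation -/
lemma ev_tr (x : ℕ → ℍ[ℚ]) (p : Pol) : ev x (trP p) =
    io ((1 - Quaternion.normSq (x 0 * x 1 - x 1 * x 0)) ^ 2 + cenS x (letters (shP p)) +
      Quaternion.normSq (ev x (shP p) * x 0 * x 1 - x 1 * (ev x (shP p) * x 0))) := by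
  rw [trP, ev_append, ev_neg, ev_append, ev_sq, ev_append, ev_cen, ev_sqcom, ev_sqcom, ev_mul]
  simp only [ev_var]
  have h1 : ev x [(1, [])] = io 1 := by simp [ev]
  rw [h1, ← map_add io, ← map_mul io, ← map_add io, ← map_neg io, ← map_add io]
  congr 1
  ring

/-- **The translation is correct**, with parameters. -/
theorem tr_param (p : Pol) (k : ℕ) (r : ℕ → ℚ) :
    (∃ x : ℕ → ℍ[ℚ], (∀ n < k, x (n + 2) = io (r n)) ∧ ev x (trP p) = 0) ↔
      ∃ y : ℕ → ℚ, (∀ n < k, y n = r n) ∧ ev y p = 0 := by
  constructor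
  · rintro ⟨x, hr, hx⟩
    rw [ev_tr] at hx
    have h0 : (1 - Quaternion.normSq (x 0 * x 1 - x 1 * x 0)) ^ 2 + cenS x (letters (shP p)) +
      Quaternion.normSq (ev x (shP p) * x 0 * x 1 - x 1 * (ev x (shP p) * x 0)) = 0 := io_inj hx
    have n1 := sq_nonneg (1 - Quaternion.normSq (x 0 * x 1 - x 1 * x 0))
    have n2 := cenS_nonneg x (letters (shP p))
    have n3 := normSq_pos' (ev x (shP p) * x 0 * x 1 - x 1 * (ev x (shP p) * x 0))
    have e1 : (1 - Quaternion.normSq (x 0 * x 1 - x 1 * x 0)) ^ 2 = 0 := by linarith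
    have e2 : cenS x (letters (shP p)) = 0 := by linarith
    have e3 : Quaternion.normSq (ev x (shP p) * x 0 * x 1 - x 1 * (ev x (shP p) * x 0)) = 0 := by
      linarith
    have hne : x 0 * x 1 ≠ x 1 * x 0 := by
      intro h
      rw [h, sub_self, map_zero] at e1
      norm_num at e1
    rw [Quaternion.normSq_eq_zero, sub_eq_zero] at e3
    have hcen : ∀ n ∈ letters p, x (n + 2) = io (x (n + 2)).re := by
      intro n hn
      obtain ⟨c1, c2⟩ := cenS_zero x _ e2 _ (letters_sh p n hn)
      exact central hne c1 c2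
    refine ⟨fun n => (x (n + 2)).re, fun n hn => by
      show (x (n + 2)).re = r n
      rw [hr n hn, io_re], ?_⟩
    have h1 : ev x (shP p) = io (ev (fun n => (x (n + 2)).re) p) := by
      rw [ev_sh, ev_congr p hcen]
      exact (ev_map io (fun n => (x (n + 2)).re) p).symm
    rw [h1] at e3
    by_contra hcon
    apply hne
    have hc : io (ev (fun n => (x (n + 2)).re) p) ≠ 0 := fun h => hcon (io_inj h)
    have h2 : io (ev (fun n => (x (n + 2)).re) p) * (x 0 * x 1) =
        io (ev (fun n => (x (n + 2)).re) p) * (x 1 * x 0) := by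
      rw [← mul_assoc, e3, ← mul_assoc, ← mul_assoc, io_comm _ (x 1)]
    exact mul_left_cancel₀ hc h2
  · rintro ⟨y, hr, hy⟩
    refine ⟨fun n => if n = 0 then qi else if n = 1 then qj else io (y (n - 2)), fun n hn => by
      rw [← hr n hn]
      rfl, ?_⟩
    set x : ℕ → ℍ[ℚ] := fun n => if n = 0 then qi else if n = 1 then qj else io (y (n - 2))
      with hxdef
    have x0 : x 0 = qi := rfl
    have x1 : x 1 = qj := rfl
    have x2 : ∀ n, x (n + 2) = io (y n) := fun n => rfl
    have h1 : ev x (shP p) = 0 := by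
      rw [ev_sh]
      have h2 := ev_map io y p
      rw [hy, map_zero] at h2
      exact h2.symm
    have h2 : Quaternion.normSq (x 0 * x 1 - x 1 * x 0) = 1 := by
      rw [x0, x1]
      exact norm_qi_qj
    have h3 : cenS x (letters (shP p)) = 0 := by
      have : ∀ l : List ℕ, (∀ k ∈ l, 2 ≤ k) → cenS x l = 0 := by
        intro l
        induction l with
        | nil => simp [cenS]
        | cons k l ih =>
          intro hl
          have e : cenS x (k :: l) = (Quaternion.normSq (x k * x 0 - x 0 * x k) +
            Quaternion.normSq (x k * x 1 - x 1 * x k)) + cenS x l := by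
            simp [cenS]
          obtain ⟨j, rfl⟩ := Nat.exists_eq_add_of_le (hl k List.mem_cons_self)
          rw [e, ih fun i hi => hl i (List.mem_cons_of_mem _ hi), add_comm 2 j, x2,
            io_comm _ (x 0), io_comm _ (x 1)]
          simp
      refine this _ fun k hk => ?_
      unfold letters shP at hk
      rw [List.mem_flatMap] at hk
      obtain ⟨t, ht, hn⟩ := hk
      rw [List.mem_map] at ht
      obtain ⟨s, -, rfl⟩ := ht
      simp only [List.mem_map] at hn
      obtain ⟨j, -, rfl⟩ := hn
      omega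
    rw [ev_tr, h1, h2, h3]
    simp

/-- **The translation is correct.** -/
theorem tr_iff (p : Pol) : (∃ x : ℕ → ℍ[ℚ], ev x (trP p) = 0) ↔ ∃ y : ℕ → ℚ, ev y p = 0 := by
  have h := tr_param p 0 fun _ => 0
  simpa using h

/-! ### Computability -/

lemma prim_var : Primrec var := by
  unfold var
  exact Primrec.list_cons.comp (Primrec.pair (Primrec.const 1)
    (Primrec.list_cons.comp Primrec.id (Primrec.const []))) (Primrec.const [])

lemma prim_cenP : Primrec cenP := by
  unfold cenP
  refine Primrec.list_flatMap Primrec.id ?_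
  have hk : Primrec (fun q : List ℕ × ℕ => var q.2) := prim_var.comp Primrec.snd
  exact Primrec.list_append.comp (prim_sqP.comp (prim_comP.comp hk (Primrec.const (var 0))))
    (prim_sqP.comp (prim_comP.comp hk (Primrec.const (var 1))))

lemma prim_shP : Primrec shP := by
  unfold shP
  refine Primrec.list_map Primrec.id ?_
  refine Primrec.pair (Primrec.fst.comp Primrec.snd) ?_
  refine Primrec.list_map (Primrec.snd.comp Primrec.snd) ?_
  exact Primrec.nat_add.comp Primrec.snd (Primrec.const 2)

theorem prim_trP : Primrec trP := by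
  unfold trP
  refine Primrec.list_append.comp (Primrec.const _) (prim_negP.comp (Primrec.list_append.comp
    (prim_cenP.comp (prim_letters.comp prim_shP)) (prim_sqP.comp (prim_comP.comp
      (prim_mulP.comp prim_shP (Primrec.const _)) (Primrec.const _)))))

end Pool.Agent.TH783.QH
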