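import Pool.Agent.TH783.QH.Quat

/-!
# From equations over the rational quaternions to equations over the rationals
-/

set_option autoImplicit false
set_option linter.unusedSectionVars false

open scoped Quaternion

namespace Pool.Agent.TH783.QH

/-- four polynomials: the coordinates of a quaternion -/
abbrev Pol4 := (Pol × Pol) × (Pol × Pol)

/-- the value in the quaternions -/
def ev4 (y : ℕ → ℚ) (P : Pol4) : ℍ[ℚ] := ⟨ev y P.1.1, ev y P.1.2, ev y P.2.1, ev y P.2.2⟩

/-- multiplication by `c` times a variable -/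
def smP (c : ℤ) (v : ℕ) (P : Pol) : Pol := P.map fun t => (c * t.1, v :: t.2)

lemma ev_sm (y : ℕ → ℚ) (c : ℤ) (v : ℕ) (P : Pol) : ev y (smP c v P) = c * y v * ev y P := by
  induction P with
  | nil => simp [smP]
  | cons t P ih =>
    have h : smP c v (t :: P) = (c * t.1, v :: t.2) :: smP c v P := rfl
    rw [h, ev_cons, ev_cons, ih, List.map_cons, List.prod_cons]
    push_cast
    ring

/-- multiplication by the quaternion with the coordinates `4 n, ..., 4 n + 3` from the left -/
def stepP (n : ℕ) (P : Pol4) : Pol4 :=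
  ((smP 1 (4 * n) P.1.1 ++ smP (-1) (4 * n + 1) P.1.2 ++ smP (-1) (4 * n + 2) P.2.1 ++
      smP (-1) (4 * n + 3) P.2.2,
    smP 1 (4 * n) P.1.2 ++ smP 1 (4 * n + 1) P.1.1 ++ smP 1 (4 * n + 2) P.2.2 ++
      smP (-1) (4 * n + 3) P.2.1),
   (smP 1 (4 * n) P.2.1 ++ smP (-1) (4 * n + 1) P.2.2 ++ smP 1 (4 * n + 2) P.1.1 ++
      smP 1 (4 * n + 3) P.1.2,
    smP 1 (4 * n) P.2.2 ++ smP 1 (4 * n + 1) P.2.1 ++ smP (-1) (4 * n + 2) P.1.2 ++
      smP 1 (4 * n + 3) P.1.1))

/-- the quaternions with given coordinates -/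
def toQ (y : ℕ → ℚ) (n : ℕ) : ℍ[ℚ] := ⟨y (4 * n), y (4 * n + 1), y (4 * n + 2), y (4 * n + 3)⟩

lemma ev4_re (y : ℕ → ℚ) (P : Pol4) : (ev4 y P).re = ev y P.1.1 := rfl
lemma ev4_imI (y : ℕ → ℚ) (P : Pol4) : (ev4 y P).imI = ev y P.1.2 := rfl
lemma ev4_imJ (y : ℕ → ℚ) (P : Pol4) : (ev4 y P).imJ = ev y P.2.1 := rfl
lemma ev4_imK (y : ℕ → ℚ) (P : Pol4) : (ev4 y P).imK = ev y P.2.2 := rfl
lemma toQ_re (y : ℕ → ℚ) (n : ℕ) : (toQ y n).re = y (4 * n) := rfl
lemma toQ_imI (y : ℕ → ℚ) (n : ℕ) : (toQ y n).imI = y (4 * n + 1) := rfl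
lemma toQ_imJ (y : ℕ → ℚ) (n : ℕ) : (toQ y n).imJ = y (4 * n + 2) := rfl
lemma toQ_imK (y : ℕ → ℚ) (n : ℕ) : (toQ y n).imK = y (4 * n + 3) := rfl

lemma ev_step (y : ℕ → ℚ) (n : ℕ) (P : Pol4) : ev4 y (stepP n P) = toQ y n * ev4 y P := by
  ext
  · rw [Quaternion.re_mul]
    simp only [ev4_re, ev4_imI, ev4_imJ, ev4_imK, toQ_re, toQ_imI, toQ_imJ, toQ_imK, stepP,
      ev_append, ev_sm]
    push_cast
    ring
  · rw [Quaternion.imI_mul]
    simp only [ev4_re, ev4_imI, ev4_imJ, ev4_imK, toQ_re, toQ_imI, toQ_imJ, toQ_imK, stepP,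
      ev_append, ev_sm]
    push_cast
    ring
  · rw [Quaternion.imJ_mul]
    simp only [ev4_re, ev4_imI, ev4_imJ, ev4_imK, toQ_re, toQ_imI, toQ_imJ, toQ_imK, stepP,
      ev_append, ev_sm]
    push_cast
    ring
  · rw [Quaternion.imK_mul]
    simp only [ev4_re, ev4_imI, ev4_imJ, ev4_imK, toQ_re, toQ_imI, toQ_imJ, toQ_imK, stepP,
      ev_append, ev_sm]
    push_cast
    ring

/-- the coordinates of `c` times a word -/
def wordP (t : ℤ × List ℕ) : Pol4 := t.2.foldr stepP (([(t.1, [])], []), ([], []))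

lemma ev_word (y : ℕ → ℚ) (c : ℤ) (w : List ℕ) :
    ev4 y (wordP (c, w)) = (c : ℍ[ℚ]) * (w.map (toQ y)).prod := by
  unfold wordP
  induction w with
  | nil =>
    simp only [List.foldr_nil, List.map_nil, List.prod_nil, mul_one]
    have h : ((c : ℤ) : ℍ[ℚ]) = io (c : ℚ) := by simp
    rw [h]
    ext
    · rw [ev4_re, io_re]
      simp [ev]
    · rfl
    · rfl
    · rfl
  | cons n w ih =>
    simp only [List.foldr_cons, List.map_cons, List.prod_cons] at ih ⊢
    rw [ev_step, ih, ← mul_assoc, ← mul_assoc, (Int.cast_commute c (toQ y n)).eq]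

/-- the coordinates of a polynomial -/
def coP (p : Pol) : Pol4 :=
  ((p.flatMap fun t => (wordP t).1.1, p.flatMap fun t => (wordP t).1.2),
   (p.flatMap fun t => (wordP t).2.1, p.flatMap fun t => (wordP t).2.2))

lemma ev_co (y : ℕ → ℚ) (p : Pol) : ev4 y (coP p) = ev (toQ y) p := by
  induction p with
  | nil =>
    ext <;> rfl
  | cons t p ih =>
    rw [ev_cons, ← ev_word, ← ih]
    ext
    · rw [Quaternion.re_add, ev4_re, ev4_re, ev4_re, coP]
      simp only [List.flatMap_cons, ev_append]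
      rfl
    · rw [Quaternion.imI_add, ev4_imI, ev4_imI, ev4_imI, coP]
      simp only [List.flatMap_cons, ev_append]
      rfl
    · rw [Quaternion.imJ_add, ev4_imJ, ev4_imJ, ev4_imJ, coP]
      simp only [List.flatMap_cons, ev_append]
      rfl
    · rw [Quaternion.imK_add, ev4_imK, ev4_imK, ev4_imK, coP]
      simp only [List.flatMap_cons, ev_append]
      rfl

/-- the translation -/
def quP (p : Pol) : Pol :=
  sqP (coP p).1.1 ++ sqP (coP p).1.2 ++ sqP (coP p).2.1 ++ sqP (coP p).2.2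

/-- **The translation is correct.** -/
theorem qu_iff (p : Pol) : (∃ y : ℕ → ℚ, ev y (quP p) = 0) ↔ ∃ x : ℕ → ℍ[ℚ], ev x p = 0 := by
  have key : ∀ y : ℕ → ℚ, ev y (quP p) = Quaternion.normSq (ev (toQ y) p) := by
    intro y
    rw [← ev_co, Quaternion.normSq_def']
    rw [quP, ev_append, ev_append, ev_append, ev_sq, ev_sq, ev_sq, ev_sq]
    rw [← ev4_re, ← ev4_imI, ← ev4_imJ, ← ev4_imK]
    ring
  constructor
  · rintro ⟨y, hy⟩
    rw [key, Quaternion.normSq_eq_zero] at hy
    exact ⟨toQ y, hy⟩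
  · rintro ⟨x, hx⟩
    refine ⟨fun m => if m % 4 = 0 then (x (m / 4)).re else if m % 4 = 1 then (x (m / 4)).imI else
      if m % 4 = 2 then (x (m / 4)).imJ else (x (m / 4)).imK, ?_⟩
    rw [key, Quaternion.normSq_eq_zero]
    have h : toQ (fun m => if m % 4 = 0 then (x (m / 4)).re else if m % 4 = 1 then (x (m / 4)).imI
        else if m % 4 = 2 then (x (m / 4)).imJ else (x (m / 4)).imK) = x := by
      funext n
      have m0 : (4 * n) % 4 = 0 := by omega
      have m1 : (4 * n + 1) % 4 = 1 := by omega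
      have m2 : (4 * n + 2) % 4 = 2 := by omega
      have m3 : (4 * n + 3) % 4 = 3 := by omega
      have d0 : (4 * n) / 4 = n := by omega
      have d1 : (4 * n + 1) / 4 = n := by omega
      have d2 : (4 * n + 2) / 4 = n := by omega
      have d3 : (4 * n + 3) / 4 = n := by omega
      ext
      · rw [toQ_re]
        simp only [m0, d0, if_true]
      · rw [toQ_imI]
        simp only [m1, d1, if_true, one_ne_zero, if_false]
      · rw [toQ_imJ]
        simp only [m2, d2, if_true]
        norm_num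
      · rw [toQ_imK]
        simp only [m3, d3]
        norm_num
    rw [h, hx]

/-! ### Computability -/

lemma prim_smP {α : Type} [Primcodable α] {c : ℤ} {v : α → ℕ} {P : α → Pol} (hv : Primrec v)
    (hP : Primrec P) : Primrec fun a => smP c (v a) (P a) := by
  unfold smP
  refine Primrec.list_map hP ?_
  exact Primrec.pair (prim_int_mul.comp (Primrec.const c) (Primrec.fst.comp Primrec.snd))
    (Primrec.list_cons.comp (hv.comp Primrec.fst) (Primrec.snd.comp Primrec.snd))

lemma prim_stepP : Primrec₂ stepP := by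
  unfold stepP
  have hn : Primrec (fun q : ℕ × Pol4 => 4 * q.1) :=
    Primrec.nat_mul.comp (Primrec.const 4) Primrec.fst
  have hv : ∀ i, Primrec (fun q : ℕ × Pol4 => 4 * q.1 + i) := fun i =>
    Primrec.nat_add.comp hn (Primrec.const i)
  have q0 : Primrec (fun q : ℕ × Pol4 => q.2.1.1) :=
    Primrec.fst.comp (Primrec.fst.comp Primrec.snd)
  have q1 : Primrec (fun q : ℕ × Pol4 => q.2.1.2) :=
    Primrec.snd.comp (Primrec.fst.comp Primrec.snd)
  have q2 : Primrec (fun q : ℕ × Pol4 => q.2.2.1) :=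
    Primrec.fst.comp (Primrec.snd.comp Primrec.snd)
  have q3 : Primrec (fun q : ℕ × Pol4 => q.2.2.2) :=
    Primrec.snd.comp (Primrec.snd.comp Primrec.snd)
  refine Primrec.pair (Primrec.pair ?_ ?_) (Primrec.pair ?_ ?_)
  · exact Primrec.list_append.comp (Primrec.list_append.comp (Primrec.list_append.comp
      (prim_smP hn q0) (prim_smP (hv 1) q1)) (prim_smP (hv 2) q2)) (prim_smP (hv 3) q3)
  · exact Primrec.list_append.comp (Primrec.list_append.comp (Primrec.list_append.comp
      (prim_smP hn q1) (prim_smP (hv 1) q0)) (prim_smP (hv 2) q3)) (prim_smP (hv 3) q2)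
  · exact Primrec.list_append.comp (Primrec.list_append.comp (Primrec.list_append.comp
      (prim_smP hn q2) (prim_smP (hv 1) q3)) (prim_smP (hv 2) q0)) (prim_smP (hv 3) q1)
  · exact Primrec.list_append.comp (Primrec.list_append.comp (Primrec.list_append.comp
      (prim_smP hn q3) (prim_smP (hv 1) q2)) (prim_smP (hv 2) q1)) (prim_smP (hv 3) q0)

lemma prim_wordP : Primrec wordP := by
  have h0 : Primrec (fun t : ℤ × List ℕ => (t.1, ([] : List ℕ))) :=
    Primrec.pair Primrec.fst (Primrec.const [])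
  have h1 : Primrec (fun t : ℤ × List ℕ => ([(t.1, [])] : Pol)) :=
    (Primrec.list_cons (α := ℤ × List ℕ)).comp h0 (Primrec.const ([] : Pol))
  have h2 : Primrec (fun t : ℤ × List ℕ => (((([(t.1, [])] : Pol), []), ([], [])) : Pol4)) :=
    Primrec.pair (Primrec.pair h1 (Primrec.const ([] : Pol)))
      (Primrec.const (([], []) : Pol × Pol))
  have h3 : Primrec₂ (fun (_ : ℤ × List ℕ) (q : ℕ × Pol4) => stepP q.1 q.2) :=
    prim_stepP.comp (Primrec.fst.comp Primrec.snd) (Primrec.snd.comp Primrec.snd)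
  exact Primrec.list_foldr (α := ℤ × List ℕ) (β := ℕ) (σ := Pol4) (f := fun t => t.2)
    (h := fun _ q => stepP q.1 q.2) Primrec.snd h2 h3

lemma prim_coP : Primrec coP := by
  unfold coP
  have hw : Primrec (fun q : Pol × (ℤ × List ℕ) => wordP q.2) := prim_wordP.comp Primrec.snd
  exact Primrec.pair (Primrec.pair
    (Primrec.list_flatMap Primrec.id (Primrec.fst.comp (Primrec.fst.comp hw)))
    (Primrec.list_flatMap Primrec.id (Primrec.snd.comp (Primrec.fst.comp hw))))
    (Primrec.pair (Primrec.list_flatMap Primrec.id (Primrec.fst.comp (Primrec.snd.comp hw)))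
    (Primrec.list_flatMap Primrec.id (Primrec.snd.comp (Primrec.snd.comp hw))))

theorem prim_quP : Primrec quP := by
  unfold quP
  have h0 := prim_sqP.comp (Primrec.fst.comp (Primrec.fst.comp prim_coP))
  have h1 := prim_sqP.comp (Primrec.snd.comp (Primrec.fst.comp prim_coP))
  have h2 := prim_sqP.comp (Primrec.fst.comp (Primrec.snd.comp prim_coP))
  have h3 := prim_sqP.comp (Primrec.snd.comp (Primrec.snd.comp prim_coP))
  exact Primrec.list_append.comp (Primrec.list_append.comp (Primrec.list_append.comp h0 h1) h2) h3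

end Pool.Agent.TH783.QH
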