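import Pool.Agent.TH783.QH.RedA
import Pool.Agent.TH783.QH.RedB

/-!
# Systems of equations and inequations over the rational quaternions
-/

set_option autoImplicit false
set_option linter.unusedSectionVars false

open scoped Quaternion

namespace Pool.Agent.TH783.QH

/-- the condition that a polynomial vanishes, if the variables 0 and 1 do not commute -/
def condP (c : Pol) : Pol :=
  sqP (comP c (var 0)) ++ sqP (comP c (var 1)) ++ sqP (comP (mulP c (var 0)) (var 1))

/-- the value of the condition -/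
def cnd (a b c : ℍ[ℚ]) : ℚ := Quaternion.normSq (c * a - a * c) +
  Quaternion.normSq (c * b - b * c) + Quaternion.normSq (c * a * b - b * (c * a))

lemma ev_cond (x : ℕ → ℍ[ℚ]) (c : Pol) : ev x (condP c) = io (-(cnd (x 0) (x 1) (ev x c))) := by
  rw [condP, ev_append, ev_append, ev_sqcom, ev_sqcom, ev_sqcom, ev_mul, cnd]
  simp only [ev_var]
  rw [← map_add io, ← map_add io]
  congr 1
  ring

lemma cnd_nonneg (a b c : ℍ[ℚ]) : 0 ≤ cnd a b c :=
  add_nonneg (add_nonneg (normSq_pos' _) (normSq_pos' _)) (normSq_pos' _)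

lemma cnd_zero {a b c : ℍ[ℚ]} (hab : a * b ≠ b * a) (h : cnd a b c = 0) : c = 0 := by
  unfold cnd at h
  have n1 := normSq_pos' (c * a - a * c)
  have n2 := normSq_pos' (c * b - b * c)
  have n3 := normSq_pos' (c * a * b - b * (c * a))
  have e1 : Quaternion.normSq (c * a - a * c) = 0 := by linarith
  have e2 : Quaternion.normSq (c * b - b * c) = 0 := by linarith
  have e3 : Quaternion.normSq (c * a * b - b * (c * a)) = 0 := by linarith
  rw [Quaternion.normSq_eq_zero, sub_eq_zero] at e1 e2 e3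
  by_contra hc
  apply hab
  refine mul_left_cancel₀ hc ?_
  rw [← mul_assoc, e3, ← mul_assoc, ← mul_assoc, e2]

/-- renaming the variables -/
def sh3 (p : Pol) : Pol := p.map fun t => (t.1, t.2.map (· + 3))

lemma ev_sh3 {R : Type} [Ring R] (x : ℕ → R) (p : Pol) :
    ev x (sh3 p) = ev (fun n => x (n + 3)) p := by
  induction p with
  | nil => simp [sh3]
  | cons t p ih =>
    have h : sh3 (t :: p) = (t.1, t.2.map (· + 3)) :: sh3 p := rfl
    rw [h, ev_cons, ev_cons, ih, List.map_map]
    rfl

/-- products -/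
def prodP (qs : List Pol) : Pol := qs.foldr mulP [(1, [])]

lemma ev_prod_ne (x : ℕ → ℍ[ℚ]) (qs : List Pol) :
    ev x (prodP qs) ≠ 0 ↔ ∀ q ∈ qs, ev x q ≠ 0 := by
  induction qs with
  | nil => simp [prodP, ev]
  | cons q qs ih =>
    have h : prodP (q :: qs) = mulP q (prodP qs) := rfl
    rw [h, ev_mul, mul_ne_zero_iff, ih]
    simp

/-- the translation of a system -/
def sysP (s : List Pol × List Pol) : Pol :=
  sqP (sqP (comP (var 0) (var 1)) ++ [(1, [])]) ++
    negP (condP (mulP (sh3 (prodP s.2)) (var 2) ++ [(-1, [])]) ++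
      s.1.flatMap fun p => condP (sh3 p))

/-- the sum of the conditions -/
def sysS (x : ℕ → ℍ[ℚ]) (ps : List Pol) : ℚ :=
  (ps.map fun p => cnd (x 0) (x 1) (ev x (sh3 p))).sum

lemma ev_sysS (x : ℕ → ℍ[ℚ]) (ps : List Pol) :
    ev x (ps.flatMap fun p => condP (sh3 p)) = io (-(sysS x ps)) := by
  induction ps with
  | nil => simp [sysS]
  | cons p ps ih =>
    rw [List.flatMap_cons, ev_append, ih, ev_cond, ← map_add io]
    congr 1
    simp only [sysS, List.map_cons, List.sum_cons]
    ring

lemma sysS_nonneg (x : ℕ → ℍ[ℚ]) (ps : List Pol) : 0 ≤ sysS x ps := by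
  refine List.sum_nonneg fun r hr => ?_
  rw [List.mem_map] at hr
  obtain ⟨k, -, rfl⟩ := hr
  exact cnd_nonneg _ _ _

lemma sysS_zero {x : ℕ → ℍ[ℚ]} (hne : x 0 * x 1 ≠ x 1 * x 0) (ps : List Pol) :
    sysS x ps = 0 ↔ ∀ p ∈ ps, ev x (sh3 p) = 0 := by
  induction ps with
  | nil => simp [sysS]
  | cons p ps ih =>
    have h : sysS x (p :: ps) = cnd (x 0) (x 1) (ev x (sh3 p)) + sysS x ps := by
      simp [sysS]
    have n1 := cnd_nonneg (x 0) (x 1) (ev x (sh3 p))
    have n2 := sysS_nonneg x ps
    rw [h]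
    constructor
    · intro h0 q hq
      rcases List.mem_cons.1 hq with rfl | hq
      · exact cnd_zero hne (by linarith)
      · exact ih.1 (by linarith) q hq
    · intro h0
      rw [h0 p List.mem_cons_self, ih.2 fun q hq => h0 q (List.mem_cons_of_mem _ hq)]
      simp [cnd]

lemma ev_sys (x : ℕ → ℍ[ℚ]) (s : List Pol × List Pol) : ev x (sysP s) =
    io ((1 - Quaternion.normSq (x 0 * x 1 - x 1 * x 0)) ^ 2 +
      cnd (x 0) (x 1) (ev x (sh3 (prodP s.2)) * x 2 - 1) + sysS x s.1) := by
  rw [sysP, ev_append, ev_neg, ev_append, ev_sq, ev_append, ev_cond, ev_sysS, ev_sqcom, ev_append,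
    ev_mul]
  simp only [ev_var]
  have h1 : ev x [(1, [])] = io 1 := by simp [ev]
  have h2 : ev x [(-1, [])] = -1 := by simp [ev]
  rw [h1, h2, show ev x (sh3 (prodP s.2)) * x 2 + -1 = ev x (sh3 (prodP s.2)) * x 2 - 1 from
    (sub_eq_add_neg _ _).symm]
  generalize cnd (x 0) (x 1) (ev x (sh3 (prodP s.2)) * x 2 - 1) = c
  rw [← map_add io, ← map_mul io, ← map_add io, ← map_neg io, ← map_add io]
  congr 1
  ring

/-- **Finite systems of equations and inequations are equivalent to one equation.** -/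
theorem sys_iff (s : List Pol × List Pol) : (∃ x : ℕ → ℍ[ℚ], ev x (sysP s) = 0) ↔
    ∃ x : ℕ → ℍ[ℚ], (∀ p ∈ s.1, ev x p = 0) ∧ ∀ q ∈ s.2, ev x q ≠ 0 := by
  constructor
  · rintro ⟨x, hx⟩
    rw [ev_sys] at hx
    have h0 := io_inj hx
    have n1 := sq_nonneg (1 - Quaternion.normSq (x 0 * x 1 - x 1 * x 0))
    have n2 := cnd_nonneg (x 0) (x 1) (ev x (sh3 (prodP s.2)) * x 2 - 1)
    have n3 := sysS_nonneg x s.1
    have e1 : (1 - Quaternion.normSq (x 0 * x 1 - x 1 * x 0)) ^ 2 = 0 := by linarith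
    have hne : x 0 * x 1 ≠ x 1 * x 0 := by
      intro h
      rw [h, sub_self, map_zero] at e1
      norm_num at e1
    have e2 := cnd_zero hne (c := ev x (sh3 (prodP s.2)) * x 2 - 1) (by linarith)
    have e3 := (sysS_zero hne s.1).1 (by linarith)
    refine ⟨fun n => x (n + 3), fun p hp => ?_, ?_⟩
    · have := e3 p hp
      rwa [ev_sh3] at this
    · rw [← ev_prod_ne, ← ev_sh3]
      intro h
      rw [h, zero_mul, zero_sub, neg_eq_zero] at e2
      exact one_ne_zero e2
  · rintro ⟨y, hy, hy'⟩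
    rw [← ev_prod_ne] at hy'
    refine ⟨fun n => if n = 0 then qi else if n = 1 then qj else if n = 2 then
      (ev y (prodP s.2))⁻¹ else y (n - 3), ?_⟩
    set x : ℕ → ℍ[ℚ] := fun n => if n = 0 then qi else if n = 1 then qj else if n = 2 then
      (ev y (prodP s.2))⁻¹ else y (n - 3) with hx
    have x0 : x 0 = qi := rfl
    have x1 : x 1 = qj := rfl
    have x2 : x 2 = (ev y (prodP s.2))⁻¹ := rfl
    have x3 : (fun n => x (n + 3)) = y := rfl
    have hN : Quaternion.normSq (x 0 * x 1 - x 1 * x 0) = 1 := by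
      rw [x0, x1]
      exact norm_qi_qj
    have hne : x 0 * x 1 ≠ x 1 * x 0 := by
      intro h
      rw [h, sub_self, map_zero] at hN
      exact zero_ne_one hN
    have h1 : sysS x s.1 = 0 := by
      rw [sysS_zero hne]
      intro p hp
      rw [ev_sh3, x3]
      exact hy p hp
    rw [ev_sys, h1, ev_sh3, x3, hN, x2, mul_inv_cancel₀ hy', sub_self]
    simp [cnd]

/-! ### Computability -/

lemma prim_condP : Primrec condP := by
  unfold condP
  exact Primrec.list_append.comp (Primrec.list_append.comp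
    (prim_sqP.comp (prim_comP.comp Primrec.id (Primrec.const _)))
    (prim_sqP.comp (prim_comP.comp Primrec.id (Primrec.const _))))
    (prim_sqP.comp (prim_comP.comp (prim_mulP.comp Primrec.id (Primrec.const _))
      (Primrec.const _)))

lemma prim_sh3 : Primrec sh3 := by
  unfold sh3
  refine Primrec.list_map Primrec.id ?_
  refine Primrec.pair (Primrec.fst.comp Primrec.snd) ?_
  refine Primrec.list_map (Primrec.snd.comp Primrec.snd) ?_
  exact Primrec.nat_add.comp Primrec.snd (Primrec.const 3)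

lemma prim_prodP : Primrec prodP := by
  have h3 : Primrec₂ (fun (_ : List Pol) (q : Pol × Pol) => mulP q.1 q.2) :=
    prim_mulP.comp (Primrec.fst.comp Primrec.snd) (Primrec.snd.comp Primrec.snd)
  exact Primrec.list_foldr (α := List Pol) (β := Pol) (σ := Pol) (f := fun t => t)
    (h := fun _ q => mulP q.1 q.2) Primrec.id (Primrec.const _) h3

theorem prim_sysP : Primrec sysP := by
  unfold sysP
  refine Primrec.list_append.comp (Primrec.const _) (prim_negP.comp (Primrec.list_append.comp
    (prim_condP.comp (Primrec.list_append.comp (prim_mulP.comp (prim_sh3.comp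
      (prim_prodP.comp Primrec.snd)) (Primrec.const _)) (Primrec.const _)))
    (Primrec.list_flatMap Primrec.fst ?_)))
  exact prim_condP.comp (prim_sh3.comp Primrec.snd)

end Pool.Agent.TH783.QH
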